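import Pool.Agent.Helper95.PF.C1W

/-! Project PF (MP_b8862a_ag), type A (helper95): an irreducible module of a simple algebra with two roots (`sl_2`): the weights are simple, they are `m - 2k`. No form is used. -/

set_option autoImplicit false
set_option linter.unusedSectionVars false

open Module LieModule LieAlgebra LieAlgebra.IsKilling MTP.MF

namespace PF.C

variable {K : Type*} [Field K] [CharZero K] [IsAlgClosed K]
  {L : Type*} [LieRing L] [LieAlgebra K L] [FiniteDimensional K L] [IsKilling K L]
  {H : LieSubalgebra K L} [H.IsCartanSubalgebra]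
  {V : Type*} [AddCommGroup V] [Module K V] [FiniteDimensional K V]
  [LieRingModule L V] [LieModule K L V] {I : Type*} [Fintype I]

/-- there are two roots -/
lemma typeA_roots (hA : TypeA (PhiS H)) : ∃ α : H.root, ∀ β : H.root, rt β = rt α ∨ rt β = -rt α := by
  obtain ⟨a, ha⟩ := hA
  have h1 : a ∈ PhiS H := (ha a).2 (Or.inl rfl)
  obtain ⟨α, rfl⟩ := mem_PhiS.1 h1
  refine ⟨α, fun β => ?_⟩
  rcases (ha (toE (rt β))).1 (mem_PhiS.2 ⟨β, rfl⟩) with h | h
  · exact Or.inl (toE_inj (intl_rt β) (intl_rt α) h)
  · right
    rw [← toE_neg (intl_rt α)] at h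
    exact toE_inj (intl_rt β) (intl_rt α).neg h

lemma coroot_eq_neg {α β : H.root} (h : rt β = -rt α) : coroot β.1 = -coroot α.1 := by
  have h1 : rt ((rootSystem H).reflectionPerm α α) = -rt α := by
    show (rootSystem H).root _ = _
    rw [RootPairing.root_reflectionPerm]
    exact RootPairing.reflection_apply_self _ _
  have h2 : β = (rootSystem H).reflectionPerm α α := rt_inj (h.trans h1.symm)
  rw [h2]
  show (rootSystem H).coroot _ = _
  rw [RootPairing.coroot_reflectionPerm]
  exact RootPairing.coreflection_apply_self _ _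

/-- the Cartan subalgebra is the line of the coroot -/
lemma typeA_line {α : H.root} (hα : ∀ β : H.root, rt β = rt α ∨ rt β = -rt α) (h : H) :
    ∃ c : K, h = c • coroot α.1 := by
  have h1 : (⊤ : Submodule K H) ≤ Submodule.span K {coroot α.1} := by
    have h0 : (rootSystem H).corootSpan K = ⊤ := RootPairing.IsRootSystem.span_coroot_eq_top
    rw [← h0]
    unfold RootPairing.corootSpan
    rw [Submodule.span_le]
    rintro _ ⟨β, rfl⟩
    show coroot β.1 ∈ Submodule.span K {coroot α.1}
    rcases hα β with h2 | h2
    · rw [rt_inj h2]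
      exact Submodule.mem_span_singleton_self _
    · rw [coroot_eq_neg h2]
      exact Submodule.neg_mem _ (Submodule.mem_span_singleton_self _)
  obtain ⟨c, hc⟩ := Submodule.mem_span_singleton.1 (h1 (Submodule.mem_top (x := h)))
  exact ⟨c, hc.symm⟩

/-- the weights in type A -/
theorem typeA (B : WB (V := V) H I) [hI : Nonempty I]
    (hirr : ∀ W : Submodule K V, (∀ x : L, ∀ u ∈ W, ⁅x, u⁆ ∈ W) → W = ⊥ ∨ W = ⊤) (hA : TypeA (PhiS H)) :
    ∃ α : H.root, (∀ β : H.root, rt β = rt α ∨ rt β = -rt α) ∧ (∀ h : H, ∃ c : K, h = c • coroot α.1) ∧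
      ∃ m : ℕ, Fintype.card I = m + 1 ∧ ∃ κ : I ≃ Fin (m + 1), ∀ i, B.w i (coroot α.1) = (m : K) - 2 * ((κ i : ℕ) : K) := by
  classical
  obtain ⟨α, hα⟩ := typeA_roots hA
  refine ⟨α, hα, typeA_line hα, ?_⟩
  obtain ⟨t, ht0⟩ := Finite.exists_max fun i => iv (B.w i) α
  obtain ⟨h, e, f, ht, he, hf⟩ := exists_isSl2Triple_of_weight_isNonZero (H.isNonZero_coe_root α)
  have hh := ht.h_eq_coroot (H.isNonZero_coe_root α) he hf
  have he' : ∀ x : H, ⁅(x : L), e⁆ = rt α x • e := fun x => lie_eq_smul_of_mem_rootSpace he x
  have hf' : ∀ x : H, ⁅(x : L), f⁆ = (-rt α) x • f := fun x => lie_eq_smul_of_mem_rootSpace hf x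
  have h2 : rt α (coroot α.1) = 2 := root_apply_coroot (H.isNonZero_coe_root α)
  have he0 : ⁅e, B.v t⁆ = 0 := by
    by_contra hcon
    have h3 : ∀ x : H, ⁅(x : L), ⁅e, B.v t⁆⁆ = (B.w t + rt α) x • ⁅e, B.v t⁆ := by
      intro x
      have := pow_wt (V := V) he' (B.lie_v t) 1 x
      rw [pow_one, toEnd_apply_apply, Nat.cast_one, one_smul] at this
      exact this
    obtain ⟨j, hj⟩ := exists_wt B hcon h3
    have h4 : iv (B.w j) α = iv (B.w t) α + 2 := by
      apply iv_eq
      rw [hj, LinearMap.add_apply, h2, iv_spec (intl_w B t)]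
      push_cast
      rfl
    have h5 := ht0 j
    omega
  have P : ht.HasPrimitiveVectorWith (B.v t) (B.w t (coroot α.1)) := by
    refine ⟨B.v.ne_zero t, ?_, he0⟩
    rw [hh]
    exact B.lie_v t _
  obtain ⟨m, hm⟩ := P.exists_nat
  have hg := fun k x => pow_wt (V := V) hf' (B.lie_v t) k x
  set g : ℕ → V := fun k => ((toEnd K L V f) ^ k) (B.v t) with hgdef
  -- the span is everything
  have hspan : Submodule.span K (Set.range g) = ⊤ := by
    have hstab : ∀ x : L, ∀ u ∈ Submodule.span K (Set.range g), ⁅x, u⁆ ∈ Submodule.span K (Set.range g) := by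
      intro x
      let U : Submodule K L :=
        { carrier := {x | ∀ u ∈ Submodule.span K (Set.range g), ⁅x, u⁆ ∈ Submodule.span K (Set.range g)}
          add_mem' := by
            intro a b ha hb u hu
            rw [add_lie]
            exact Submodule.add_mem _ (ha u hu) (hb u hu)
          zero_mem' := by
            intro u _
            rw [zero_lie]
            exact Submodule.zero_mem _
          smul_mem' := by
            intro c a ha u hu
            rw [smul_lie]
            exact Submodule.smul_mem _ _ (ha u hu) }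
      have hgen : ∀ x : L, (∀ k, ⁅x, g k⁆ ∈ Submodule.span K (Set.range g)) → x ∈ U := by
        intro x hx u hu
        refine Submodule.span_induction (p := fun u _ => ⁅x, u⁆ ∈ Submodule.span K (Set.range g)) ?_ ?_ ?_ ?_ hu
        · rintro _ ⟨k, rfl⟩
          exact hx k
        · rw [lie_zero]
          exact Submodule.zero_mem _
        · intro a b _ _ ha hb
          rw [lie_add]
          exact Submodule.add_mem _ ha hb
        · intro c a _ ha
          rw [lie_smul]
          exact Submodule.smul_mem _ _ ha
      have heU : e ∈ U := by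
        refine hgen e fun k => ?_
        cases k with
        | zero =>
          show ⁅e, ((toEnd K L V f) ^ 0) (B.v t)⁆ ∈ _
          rw [pow_zero, Module.End.one_apply, he0]
          exact Submodule.zero_mem _
        | succ k =>
          have h3 := P.lie_e_pow_succ_toEnd_f k
          show ⁅e, ((toEnd K L V f) ^ (k + 1)) (B.v t)⁆ ∈ _
          rw [h3]
          exact Submodule.smul_mem _ _ (Submodule.subset_span ⟨k, rfl⟩)
      have hfU : f ∈ U := by
        refine hgen f fun k => ?_
        have h3 : ⁅f, g k⁆ = g (k + 1) := by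
          show ⁅f, ((toEnd K L V f) ^ k) (B.v t)⁆ = ((toEnd K L V f) ^ (k + 1)) (B.v t)
          rw [pow_succ', Module.End.mul_apply, toEnd_apply_apply]
        rw [h3]
        exact Submodule.subset_span ⟨k + 1, rfl⟩
      have hHU : ∀ x : H, (x : L) ∈ U := by
        intro x
        refine hgen _ fun k => ?_
        rw [hg k x]
        exact Submodule.smul_mem _ _ (Submodule.subset_span ⟨k, rfl⟩)
      have hxU : x ∈ U := by
        refine root_induction (U := U) (H := H) ?_ x
        intro β z hz
        by_cases hβ : β.IsZero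
        · have hzH : z ∈ H := by
            rw [hβ.eq] at hz
            rwa [rootSpace_zero_eq, LieSubalgebra.mem_toLieSubmodule] at hz
          exact hHU ⟨z, hzH⟩
        · have hβ' : β ∈ H.root := by simpa [LieSubalgebra.root] using hβ
          rcases hα ⟨β, hβ'⟩ with h3 | h3
          · have h4 : (⟨β, hβ'⟩ : H.root) = α := rt_inj h3
            have h5 : β = α.1 := congrArg Subtype.val h4
            rw [h5] at hz
            obtain ⟨c, hc⟩ := exists_smul_eq_of_finrank_eq_one (finrank_rootSpace_eq_one α.1 (H.isNonZero_coe_root α))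
              (x := (⟨e, he⟩ : rootSpace H α.1)) (by
                intro h6
                exact ht.e_ne_zero (congrArg Subtype.val h6)) ⟨z, hz⟩
            have h7 : c • e = z := congrArg Subtype.val hc
            rw [← h7]
            exact U.smul_mem c heU
          · have h5 : β = -α.1 := by
              apply Weight.ext
              intro y
              have := congrArg (fun ν : Dual K H => ν y) h3
              simpa [rt_apply] using this
            rw [h5] at hz
            obtain ⟨c, hc⟩ := exists_smul_eq_of_finrank_eq_one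
              (finrank_rootSpace_eq_one (-α.1) (by simpa using H.isNonZero_coe_root α))
              (x := (⟨f, by simpa using hf⟩ : rootSpace H (-α.1 : Weight K H L))) (by
                intro h6
                exact ht.f_ne_zero (congrArg Subtype.val h6)) ⟨z, hz⟩
            have h7 : c • f = z := congrArg Subtype.val hc
            rw [← h7]
            exact U.smul_mem c hfU
      exact hxU
    rcases hirr _ hstab with h3 | h3
    · exfalso
      have h4 : B.v t ∈ Submodule.span K (Set.range g) := Submodule.subset_span ⟨0, by simp [hgdef]⟩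
      rw [h3, Submodule.mem_bot] at h4
      exact B.v.ne_zero t h4
    · exact h3
  have hlin : ∀ φ : Dual K V, (∀ k, φ (g k) = 0) → φ = 0 := by
    intro φ hφ
    have h3 : (⊤ : Submodule K V) ≤ LinearMap.ker φ := by
      rw [← hspan, Submodule.span_le]
      rintro _ ⟨k, rfl⟩
      exact hφ k
    exact LinearMap.ext fun u => h3 (Submodule.mem_top (x := u))
  have hval : ∀ i k, B.v.repr (g k) i ≠ 0 → B.w i (coroot α.1) = (m : K) - 2 * (k : K) := by
    intro i k hk
    rw [B.coord (hg k (coroot α.1)) hk]
    simp only [LinearMap.add_apply, LinearMap.smul_apply, LinearMap.neg_apply, smul_eq_mul, h2, hm]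
    ring
  have hex : ∀ i, ∃ k, B.v.repr (g k) i ≠ 0 := by
    intro i
    by_contra! hcon
    have h3 := hlin (B.v.coord i) hcon
    have h4 : B.v.coord i (B.v i) = 1 := by simp
    rw [h3] at h4
    simp at h4
  choose κ hκ using hex
  have hle : ∀ i, κ i < m + 1 := by
    intro i
    by_contra! hcon
    apply hκ i
    obtain ⟨r, hr⟩ := Nat.exists_eq_add_of_le hcon
    have h3 : g (κ i) = 0 := by
      show ((toEnd K L V f) ^ (κ i)) (B.v t) = 0
      rw [hr, add_comm, pow_add, Module.End.mul_apply, P.pow_toEnd_f_eq_zero_of_eq_nat hm, map_zero]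
    rw [h3]
    simp
  have hinj : Function.Injective fun i => B.w i (coroot α.1) := by
    intro i j hij
    simp only at hij
    by_contra hne
    have h3 := hlin (B.v.repr (g (κ i)) j • B.v.coord i - B.v.repr (g (κ i)) i • B.v.coord j) (by
      intro k
      by_cases hk : k = κ i
      · rw [hk]
        simp only [LinearMap.sub_apply, LinearMap.smul_apply, smul_eq_mul, Basis.coord_apply]
        ring
      · have h4 : B.v.repr (g k) i = 0 := by
          by_contra h5
          have h6 := (hval i k h5).symm.trans (hval i (κ i) (hκ i))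
          apply hk
          have h7 : (k : K) = (κ i : K) := by linear_combination (-1 / 2 : K) * h6
          exact_mod_cast h7
        have h4' : B.v.repr (g k) j = 0 := by
          by_contra h5
          have h6 := ((hval j k h5).symm.trans hij.symm).trans (hval i (κ i) (hκ i))
          apply hk
          have h7 : (k : K) = (κ i : K) := by linear_combination (-1 / 2 : K) * h6
          exact_mod_cast h7
        simp only [LinearMap.sub_apply, LinearMap.smul_apply, smul_eq_mul, Basis.coord_apply, h4, h4']
        ring)
    have h4 := congrArg (fun φ : Dual K V => φ (B.v j)) h3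
    simp only [LinearMap.sub_apply, LinearMap.smul_apply, smul_eq_mul, Basis.coord_apply, Basis.repr_self, LinearMap.zero_apply,
      Finsupp.single_eq_same, Finsupp.single_eq_of_ne hne, mul_zero, mul_one, zero_sub, neg_eq_zero] at h4
    exact hκ i h4
  have hbij : Function.Bijective fun i => (⟨κ i, hle i⟩ : Fin (m + 1)) := by
    constructor
    · intro i j hij
      have h3 : κ i = κ j := congrArg Fin.val hij
      apply hinj
      simp only
      rw [hval i _ (hκ i), hval j _ (hκ j), h3]
    · rintro ⟨k, hk⟩
      have h3 : g k ≠ 0 := P.pow_toEnd_f_ne_zero_of_eq_nat hm (by omega)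
      obtain ⟨i, hi⟩ := exists_wt B h3 (hg k)
      refine ⟨i, Fin.ext ?_⟩
      show κ i = k
      have h4 := hval i _ (hκ i)
      rw [hi] at h4
      simp only [LinearMap.add_apply, LinearMap.smul_apply, LinearMap.neg_apply, smul_eq_mul, h2, hm] at h4
      have h7 : (κ i : K) = (k : K) := by linear_combination (1 / 2 : K) * h4
      exact_mod_cast h7
  refine ⟨m, ?_, Equiv.ofBijective _ hbij, fun i => hval i _ (hκ i)⟩
  rw [Fintype.card_congr (Equiv.ofBijective _ hbij), Fintype.card_fin]

/-- the weights are simple -/
theorem typeA_simple (B : WB (V := V) H I) [Nonempty I]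
    (hirr : ∀ W : Submodule K V, (∀ x : L, ∀ u ∈ W, ⁅x, u⁆ ∈ W) → W = ⊥ ∨ W = ⊤) (hA : TypeA (PhiS H)) :
    Function.Injective B.w ∧ ∀ h : H, h ≠ 0 → Function.Injective fun i => B.w i h := by
  obtain ⟨α, -, hline, m, -, κ, hκ⟩ := typeA B hirr hA
  have h1 : Function.Injective fun i => B.w i (coroot α.1) := by
    intro i j hij
    simp only [hκ] at hij
    apply κ.injective
    apply Fin.ext
    have h2 : ((κ i : ℕ) : K) = ((κ j : ℕ) : K) := by linear_combination (-1 / 2 : K) * hij
    exact_mod_cast h2
  refine ⟨fun i j hij => h1 (by simp only [hij]), fun h hh i j hij => ?_⟩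
  obtain ⟨c, hc⟩ := hline h
  have hc0 : c ≠ 0 := by
    rintro rfl
    rw [zero_smul] at hc
    exact hh hc
  simp only [hc, map_smul, smul_eq_mul] at hij
  exact h1 (mul_left_cancel₀ hc0 hij)

end PF.C
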