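import Pool.Agent.Helper95.PF.C1

/-! Project PF (MP_b8862a_ag), block C1, second part (helper95): strings of weights, the saturated set of the weights of an irreducible self-dual module. -/

set_option autoImplicit false
set_option linter.unusedSectionVars false

open Module LieModule LieAlgebra LieAlgebra.IsKilling MTP.MF

namespace PF.C

variable {K : Type*} [Field K] [CharZero K] [IsAlgClosed K]
  {L : Type*} [LieRing L] [LieAlgebra K L] [FiniteDimensional K L] [IsKilling K L]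
  {H : LieSubalgebra K L} [H.IsCartanSubalgebra]
  {V : Type*} [AddCommGroup V] [Module K V] [FiniteDimensional K V]
  [LieRingModule L V] [LieModule K L V] {I : Type*} [Fintype I]

/-- a weight vector gives a weight -/
lemma exists_wt (B : WB (V := V) H I) {u : V} (hu : u ≠ 0) {ν : Dual K H} (h : ∀ x : H, ⁅(x : L), u⁆ = ν x • u) :
    ∃ i, B.w i = ν := by
  have h1 : ∃ i, B.v.repr u i ≠ 0 := by
    by_contra! hcon
    exact hu (B.v.repr.map_eq_zero_iff.1 (Finsupp.ext hcon))
  obtain ⟨i, hi⟩ := h1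
  exact ⟨i, LinearMap.ext fun x => B.coord (h x) hi⟩

/-- weights of the powers of a root vector -/
lemma pow_wt {x : L} {χ ν : Dual K H} (hx : ∀ h : H, ⁅(h : L), x⁆ = χ h • x) {u : V}
    (hu : ∀ h : H, ⁅(h : L), u⁆ = ν h • u) (n : ℕ) (h : H) :
    ⁅(h : L), ((toEnd K L V x) ^ n) u⁆ = (ν + (n : K) • χ) h • ((toEnd K L V x) ^ n) u := by
  induction n with
  | zero => simpa using hu h
  | succ n ih =>
    rw [pow_succ', Module.End.mul_apply, toEnd_apply_apply, leibniz_lie, hx, ih, smul_lie, lie_smul, ← add_smul]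
    congr 1
    simp only [LinearMap.add_apply, LinearMap.smul_apply, smul_eq_mul]
    push_cast
    ring

/-- the whole string through a weight -/
lemma string_full (B : WB (V := V) H I) (i : I) (α : H.root) :
    ∃ p N : ℕ, B.w i (coroot α.1) = ((N : ℤ) - 2 * (p : ℤ) : ℤ) ∧
      ∀ q : ℕ, q ≤ N → ∃ j, B.w j = B.w i + ((p : K) - (q : K)) • rt α := by
  obtain ⟨h, e, f, ht, he, hf⟩ := exists_isSl2Triple_of_weight_isNonZero (H.isNonZero_coe_root α)
  have hh := ht.h_eq_coroot (H.isNonZero_coe_root α) he hf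
  have he' : ∀ x : H, ⁅(x : L), e⁆ = rt α x • e := fun x => lie_eq_smul_of_mem_rootSpace he x
  have hf' : ∀ x : H, ⁅(x : L), f⁆ = (-rt α) x • f := fun x => lie_eq_smul_of_mem_rootSpace hf x
  have hrt : rt α ≠ 0 := (rootSystem H).ne_zero α
  have hE := fun n => pow_wt (V := V) he' (B.lie_v i) n
  have hex : ∃ n, ((toEnd K L V e) ^ n) (B.v i) = 0 := by
    by_contra! hcon
    have h1 : ∀ n : ℕ, ∃ j, B.w j = B.w i + (n : K) • rt α := fun n => exists_wt B (hcon n) (hE n)
    choose g hg using h1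
    obtain ⟨a, b, hab, hgab⟩ := Finite.exists_ne_map_eq_of_infinite g
    have h2 : (a : K) • rt α = (b : K) • rt α := by
      have := (hg a).symm.trans ((congrArg B.w hgab).trans (hg b))
      exact add_left_cancel this
    have h3 : ((a : K) - b) • rt α = 0 := by
      have : ((a : K) - b) • rt α = (a : K) • rt α - (b : K) • rt α := by module
      rw [this, h2, sub_self]
    rcases smul_eq_zero.1 h3 with h4 | h4
    · exact hab (by exact_mod_cast sub_eq_zero.1 h4)
    · exact hrt h4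
  have h0 : ¬ ((toEnd K L V e) ^ 0) (B.v i) = 0 := by
    rw [pow_zero, Module.End.one_apply]
    exact B.v.ne_zero i
  obtain ⟨p, hp1, hp2⟩ := Nat.exists_not_and_succ_of_not_zero_of_exists h0 hex
  set u := ((toEnd K L V e) ^ p) (B.v i) with hu
  have hlu : ⁅h, u⁆ = (B.w i (coroot α.1) + 2 * p) • u := by
    rw [hh, hE p]
    congr 1
    simp only [LinearMap.add_apply, LinearMap.smul_apply, smul_eq_mul]
    have : rt α (coroot α.1) = 2 := root_apply_coroot (H.isNonZero_coe_root α)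
    rw [this]
    ring
  have P : ht.HasPrimitiveVectorWith u (B.w i (coroot α.1) + 2 * p) := by
    refine ⟨hp1, hlu, ?_⟩
    rw [pow_succ', Module.End.mul_apply, toEnd_apply_apply] at hp2
    exact hp2
  obtain ⟨N, hN⟩ := P.exists_nat
  refine ⟨p, N, ?_, fun q hq => ?_⟩
  · push_cast
    linear_combination hN
  · have h1 : ((toEnd K L V f) ^ q) u ≠ 0 := P.pow_toEnd_f_ne_zero_of_eq_nat hN hq
    have h2 := fun x => pow_wt (V := V) hf' (hE p) q x
    obtain ⟨j, hj⟩ := exists_wt B h1 h2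
    refine ⟨j, ?_⟩
    rw [hj]
    module

lemma intl_w (B : WB (V := V) H I) (i : I) : Intl (B.w i) := by
  intro α
  obtain ⟨p, N, h, -⟩ := string_full B i α
  exact ⟨_, h⟩

/-- the string in the direction of a root -/
lemma string_sub (B : WB (V := V) H I) (i : I) (α : H.root) {j : ℕ} (hj : (j : ℤ) ≤ iv (B.w i) α) :
    ∃ i', B.w i' = B.w i - (j : K) • rt α := by
  obtain ⟨p, N, h, hs⟩ := string_full B i α
  rw [iv_eq h] at hj
  obtain ⟨i', hi'⟩ := hs (p + j) (by omega)
  refine ⟨i', ?_⟩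
  rw [hi']
  push_cast
  module

/-- the negative of a root -/
lemma exists_neg (α : H.root) : ∃ β : H.root, rt β = -rt α ∧ ∀ μ : Dual K H, Intl μ → iv μ β = -iv μ α := by
  refine ⟨(rootSystem H).reflectionPerm α α, ?_, ?_⟩
  · show (rootSystem H).root _ = _
    rw [RootPairing.root_reflectionPerm]
    exact RootPairing.reflection_apply_self _ _
  · intro μ hμ
    apply iv_eq
    have h1 : coroot ((rootSystem H).reflectionPerm α α).1 = -coroot α.1 := by
      show (rootSystem H).coroot _ = _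
      rw [RootPairing.coroot_reflectionPerm]
      exact RootPairing.coreflection_apply_self _ _
    rw [h1, map_neg, iv_spec hμ]
    push_cast
    rfl

/-- the weights are stable under reflections -/
lemma refl_w (B : WB (V := V) H I) (i : I) (α : H.root) : ∃ i', B.w i' = B.w i - (iv (B.w i) α : K) • rt α := by
  rcases le_total 0 (iv (B.w i) α) with h | h
  · obtain ⟨n, hn⟩ := Int.eq_ofNat_of_zero_le h
    obtain ⟨i', hi'⟩ := string_sub B i α (j := n) (by omega)
    refine ⟨i', ?_⟩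
    rw [hi', hn]
    push_cast
    rfl
  · obtain ⟨β, hβ, hβ'⟩ := exists_neg α
    obtain ⟨n, hn⟩ := Int.eq_ofNat_of_zero_le (neg_nonneg.2 h)
    obtain ⟨i', hi'⟩ := string_sub B i β (j := n) (by rw [hβ' _ (intl_w B i)]; omega)
    refine ⟨i', ?_⟩
    have h2 : iv (B.w i) α = -(n : ℤ) := by omega
    rw [hi', hβ, h2]
    push_cast
    module

/-- the weights of a self-dual module are symmetric -/
lemma neg_w {ω : LinearMap.BilinForm K V} (B : WB (V := V) H I) (hnd : ω.Nondegenerate)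
    (hsk : ∀ (x : L) (u v : V), ω ⁅x, u⁆ v = - ω u ⁅x, v⁆) (i : I) : ∃ j, B.w j = -B.w i := by
  classical
  have h := B.sum_symm hnd hsk fun μ => if μ = -B.w i then 1 else 0
  by_contra! hcon
  rw [Finset.sum_eq_zero fun j _ => if_neg (hcon j)] at h
  have h2 : (∑ j, if -B.w j = -B.w i then (1 : K) else 0) = ((Finset.univ.filter fun j => -B.w j = -B.w i).card : K) := by
    rw [Finset.sum_boole]
  rw [h2] at h
  have h3 : (Finset.univ.filter fun j => -B.w j = -B.w i).card = 0 := by exact_mod_cast h.symm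
  rw [Finset.card_eq_zero] at h3
  have h4 : i ∈ Finset.univ.filter fun j => -B.w j = -B.w i := by simp
  rw [h3] at h4
  exact absurd h4 (Finset.notMem_empty i)

open Classical in
/-- the weights in the Euclidean space -/
noncomputable def XS (B : WB (V := V) H I) : Finset (EuclideanSpace ℝ H.root) := Finset.univ.image fun i => toE (B.w i)

lemma mem_XS {B : WB (V := V) H I} {x : EuclideanSpace ℝ H.root} : x ∈ XS B ↔ ∃ i, toE (B.w i) = x := by
  unfold XS
  simp

lemma card_XS (B : WB (V := V) H I) : (XS B).card ≤ Fintype.card I := by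
  unfold XS
  exact Finset.card_image_le

/-- the weights form a saturated set; `hneg` holds for a self-dual module, see `neg_w` -/
theorem sat (B : WB (V := V) H I) (hI : Nonempty I) (hneg : ∀ i, ∃ j, B.w j = -B.w i)
    (hirr : ∀ W : Submodule K V, (∀ x : L, ∀ u ∈ W, ⁅x, u⁆ ∈ W) → W = ⊥ ∨ W = ⊤) : Sat (PhiS H) (XS B) where
  nonempty := by
    obtain ⟨i⟩ := hI
    exact ⟨_, mem_XS.2 ⟨i, rfl⟩⟩
  int := by
    intro a ha x hx
    obtain ⟨α, rfl⟩ := mem_PhiS.1 ha
    obtain ⟨i, rfl⟩ := mem_XS.1 hx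
    exact ⟨_, co_toE (intl_w B i) α⟩
  str := by
    intro a ha x hx j hj
    obtain ⟨α, rfl⟩ := mem_PhiS.1 ha
    obtain ⟨i, rfl⟩ := mem_XS.1 hx
    rw [co_toE (intl_w B i)] at hj
    have hj' : (j : ℤ) ≤ iv (B.w i) α := by exact_mod_cast hj
    obtain ⟨i', hi'⟩ := string_sub B i α hj'
    refine mem_XS.2 ⟨i', ?_⟩
    have h1 : ((j : ℕ) : K) = ((j : ℤ) : K) := by push_cast; rfl
    rw [hi', h1, toE_sub (intl_w B i) ((intl_rt α).zsmul _), toE_zsmul (intl_rt α)]
    push_cast
    rfl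
  neg := by
    intro x hx
    obtain ⟨i, rfl⟩ := mem_XS.1 hx
    obtain ⟨j, hj⟩ := hneg i
    exact mem_XS.2 ⟨j, by rw [hj, toE_neg (intl_w B i)]⟩
  coset := by
    set Q : AddSubgroup (EuclideanSpace ℝ H.root) := AddSubgroup.closure ((PhiS H : Finset _) : Set (EuclideanSpace ℝ H.root)) with hQ
    have key : ∀ i j : I, toE (B.w j) - toE (B.w i) ∈ Q := by
      intro i
      refine B.conn hirr {j | toE (B.w j) - toE (B.w i) ∈ Q} ⟨i, ?_⟩ ?_
      · change toE (B.w i) - toE (B.w i) ∈ Q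
        rw [sub_self]
        exact AddSubgroup.zero_mem _
      · intro α j k hj hk
        change toE (B.w k) - toE (B.w i) ∈ Q
        change toE (B.w j) - toE (B.w i) ∈ Q at hj
        have h1 : B.w k = rt α + B.w j := LinearMap.ext fun x => hk x
        rw [h1, toE_add (intl_rt α) (intl_w B j), add_sub_assoc]
        exact AddSubgroup.add_mem _ (AddSubgroup.subset_closure (Finset.mem_coe.2 (mem_PhiS.2 ⟨α, rfl⟩))) hj
    intro x hx y hy
    obtain ⟨i, rfl⟩ := mem_XS.1 hx
    obtain ⟨j, rfl⟩ := mem_XS.1 hy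
    exact key j i

/-- there is a nonzero weight -/
lemma exists_ne_XS (B : WB (V := V) H I) (hfaith : ∀ x : L, (∀ u : V, ⁅x, u⁆ = 0) → x = 0) [hR : Nonempty H.root] :
    ∃ x ∈ XS B, x ≠ 0 := by
  obtain ⟨α⟩ := hR
  obtain ⟨i, j, hij⟩ := B.root_apply hfaith α
  by_contra! hcon
  have h1 : ∀ k, B.w k = 0 := by
    intro k
    apply toE_inj (intl_w B k) intl_zero
    rw [toE_zero]
    exact hcon _ (mem_XS.2 ⟨k, rfl⟩)
  have h2 : rt α = 0 := by
    ext x
    have h3 := hij x
    rw [h1, h1, LinearMap.zero_apply, add_zero] at h3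
    exact h3.symm
  exact (rootSystem H).ne_zero α h2

/-- the combinatorial theorem (`hcomb`, block B8) applied to the weights; `hlarge` is `exists_large` -/
theorem types (B : WB (V := V) H I) (hI : Nonempty I) (hneg : ∀ i, ∃ j, B.w j = -B.w i)
    (hirr : ∀ W : Submodule K V, (∀ x : L, ∀ u ∈ W, ⁅x, u⁆ ∈ W) → W = ⊥ ∨ W = ⊤)
    (hfaith : ∀ x : L, (∀ u : V, ⁅x, u⁆ = 0) → x = 0) [Nonempty H.root] (hirrR : (rootSystem H).IsIrreducible) {p : ℕ}
    (h25 : 25 * Fintype.card I ≤ p ^ 2)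
    (hlarge : ∃ (α : H.root) (i : I) (k : ℤ), B.w i (coroot α.1) = (k : K) ∧
      (p : ℚ) ≤ k + (1 / 4) * ∑ g : H.root, |((rootSystem H).pairingIn ℤ g α : ℚ)|)
    (hcomb : ∀ (Φ X : Finset (EuclideanSpace ℝ H.root)), RS Φ → Sat Φ X → (∃ x ∈ X, x ≠ 0) → ∀ {p : ℕ}, 25 * X.card ≤ p ^ 2 →
      ∀ {a x : EuclideanSpace ℝ H.root}, a ∈ Φ → x ∈ X → (p : ℝ) ≤ co a x + qs Φ a → TypeA Φ ∨ TypeB Φ X ∨ TypeD Φ X) :
    TypeA (PhiS H) ∨ TypeB (PhiS H) (XS B) ∨ TypeD (PhiS H) (XS B) := by
  obtain ⟨α, i, k, hk, hp⟩ := hlarge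
  refine hcomb (PhiS H) (XS B) (rs hirrR) (sat B hI hneg hirr) (exists_ne_XS B hfaith) (p := p)
    ((Nat.mul_le_mul_left 25 (card_XS B)).trans h25) (a := toE (rt α)) (x := toE (B.w i)) (mem_PhiS.2 ⟨α, rfl⟩)
    (mem_XS.2 ⟨i, rfl⟩) ?_
  rw [co_toE (intl_w B i), qs_toE, iv_eq hk]
  have h1 : ((p : ℚ) : ℝ) ≤ ((k + (1 / 4) * ∑ g : H.root, |((rootSystem H).pairingIn ℤ g α : ℚ)| : ℚ) : ℝ) := by exact_mod_cast hp
  push_cast at h1
  exact h1

end PF.C
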