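import Pool.Agent.Helper95.PF.Defs
import Pool.Agent.Helper95.PV.Final
import Pool.Agent.Helper18.FD.Cosi

/-!
# Random potentials (MP_9ee088_an): the main theorem
-/

set_option autoImplicit false
open MeasureTheory Real Set Filter Topology
open scoped ENNReal

namespace Pool.Agent.Helper95.PF

open Pool.Agent.Helper95.PV
open Pool.Agent.Helper18.FD (cl NN pr rr k1 k2 Bump uu cl_of_mem)

theorem law_eq : law = PP := rfl

/-- the noise coefficients are in `[-1, 1]` -/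
def Cube (ω : Om) : Prop := ∀ i, ω i ∈ Icc (-1 : ℝ) 1

theorem ae_cube : ∀ᵐ ω ∂PP, Cube ω := by
  unfold Cube
  rw [ae_all_iff]
  intro i
  have h1 : MeasurePreserving (Function.eval i) PP uu := by
    unfold PP
    exact measurePreserving_eval_infinitePi (fun _ : Ix => uu) i
  have h2 : ∀ᵐ t ∂uu, t ∈ Icc (-1 : ℝ) 1 := by
    rw [ae_iff, uu, Measure.smul_apply, smul_eq_mul, mul_eq_zero]
    right
    have h3 : MeasurableSet {t : ℝ | ¬ t ∈ Icc (-1 : ℝ) 1} := measurableSet_Icc.compl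
    rw [Measure.restrict_apply h3]
    have h4 : {t : ℝ | ¬ t ∈ Icc (-1 : ℝ) 1} ∩ Icc (-1) 1 = ∅ := by
      ext t
      simp only [mem_inter_iff, mem_ofPred_eq, mem_empty_iff_false, iff_false, not_and]
      exact fun h => h
    rw [h4, measure_empty]
  exact h1.quasiMeasurePreserving.ae h2

theorem noise_eq {χ : ℝ → ℝ} {s : ℝ} {ω : Om} (hω : Cube ω) : noise χ s ω = h0 χ s ω := by
  funext x
  unfold noise h0 fd lv
  refine tsum_congr fun l => ?_
  congr 1
  refine Finset.sum_congr rfl fun i _ => ?_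
  rw [cl_of_mem (hω _), cl_of_mem (hω _)]
  unfold pr k1 k2 loc rr NN
  ring

/-! ### the background -/

section Bg

variable {s R : ℝ} {G : ℝ → ℝ}

theorem der1 (h : ContDiff ℝ 2 G) (x : ℝ) : HasDerivAt G (deriv G x) x :=
  (h.differentiable (by norm_num)).differentiableAt.hasDerivAt

theorem der2 (h : ContDiff ℝ 2 G) (x : ℝ) : HasDerivAt (deriv G) (deriv (deriv G) x) x := by
  have h1 : ContDiff ℝ 1 (deriv G) := by
    have h2 : ContDiff ℝ (1 + 1) G := by
      rw [show (1 : WithTop ℕ∞) + 1 = 2 by norm_num]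
      exact h
    exact ((contDiff_succ_iff_deriv (n := 1)).1 h2).2.2
  exact (h1.differentiable (by norm_num)).differentiableAt.hasDerivAt

theorem per_deriv {f : ℝ → ℝ} (h : ∀ x, f (x + 1) = f x) (x : ℝ) : deriv f (x + 1) = deriv f x := by
  have h1 : (fun x => f (x + 1)) = f := funext h
  have h2 := deriv_comp_add_const f 1 x
  rw [h1] at h2
  exact h2.symm

theorem potOk (h : Pot s R G) : PotOk R s (deriv G) (deriv (deriv G)) :=
  ⟨fun x => per_deriv h.per x, fun x => per_deriv (per_deriv h.per) x, der2 h.smooth, h.d1, h.d2, h.hold⟩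

theorem ndC {κ : ℝ} (h : 1 / R ≤ κ ∨ Nondeg R G) : NdC R κ (deriv (deriv G)) := by
  rcases h with h | h
  · exact Or.inl h
  · refine Or.inr fun δ hδ => le_trans (measure_mono ?_) (h δ hδ)
    rintro x ⟨h1, h2⟩
    exact ⟨Ico_subset_Icc_self h1, h2.le⟩

end Bg

/-! ### measurability -/

theorem meas_d {H H' : ℝ × ℝ → ℝ} (hH : Measurable H)
    (h : ∀ a x : ℝ, HasDerivAt (fun t => H (a, t)) (H' (a, x)) x) : Measurable H' := by
  refine measurable_of_tendsto_metrizable (f := fun n : ℕ => fun r : ℝ × ℝ =>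
    ((1 / ((n : ℝ) + 1))⁻¹ • (H (r.1, r.2 + 1 / ((n : ℝ) + 1)) - H r))) (fun n => ?_) ?_
  · have h1 : Measurable fun r : ℝ × ℝ => (r.1, r.2 + 1 / ((n : ℝ) + 1)) := by fun_prop
    have h2 : Measurable fun r : ℝ × ℝ => H (r.1, r.2 + 1 / ((n : ℝ) + 1)) - H r := (hH.comp h1).sub hH
    exact h2.const_mul ((1 / ((n : ℝ) + 1))⁻¹)
  · rw [tendsto_pi_nhds]
    intro r
    have h1 := (hasDerivAt_iff_tendsto_slope_zero.1 (h r.1 r.2))
    have h2 : Tendsto (fun n : ℕ => 1 / ((n : ℝ) + 1)) atTop (𝓝[≠] 0) := by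
      refine tendsto_nhdsWithin_iff.2 ⟨tendsto_one_div_add_atTop_nhds_zero_nat, ?_⟩
      exact Eventually.of_forall fun n => by
        have : (0 : ℝ) < 1 / ((n : ℝ) + 1) := by positivity
        exact this.ne'
    exact h1.comp h2

theorem meas_fam {G : ℝ → ℝ → ℝ} (hG : ∀ a, ContDiff ℝ 2 (G a))
    (hm : Measurable fun r : ℝ × ℝ => G r.1 r.2) :
    (Measurable fun r : ℝ × ℝ => deriv (G r.1) r.2) ∧
    Measurable fun r : ℝ × ℝ => deriv (deriv (G r.1)) r.2 := by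
  have m1 : Measurable fun r : ℝ × ℝ => deriv (G r.1) r.2 := meas_d hm fun a x => der1 (hG a) x
  exact ⟨m1, meas_d m1 fun a x => der2 (hG a) x⟩

/-! ### the potential of the standard map -/

theorem std_d1 : deriv (fun x : ℝ => -(Real.cos (2 * π * x) / (2 * π))) = fun x => Real.sin (2 * π * x) := by
  funext x
  have h1 : HasDerivAt (fun x : ℝ => 2 * π * x) (2 * π) x := by
    simpa using (hasDerivAt_id x).const_mul (2 * π)
  have h2 : HasDerivAt (fun x => -(Real.cos (2 * π * x) / (2 * π)))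
      (-(-Real.sin (2 * π * x) * (2 * π) / (2 * π))) x := (h1.cos.div_const (2 * π)).neg
  rw [h2.deriv]
  have := Real.pi_pos
  field_simp

theorem std_d2 : deriv (fun x : ℝ => Real.sin (2 * π * x)) = fun x => 2 * π * Real.cos (2 * π * x) := by
  funext x
  have h1 : HasDerivAt (fun x : ℝ => 2 * π * x) (2 * π) x := by
    simpa using (hasDerivAt_id x).const_mul (2 * π)
  rw [h1.sin.deriv]
  ring

theorem std_pot {s : ℝ} (hs : 0 < s) (hs1 : s ≤ 1) : Pot s 40 fun x : ℝ => -(Real.cos (2 * π * x) / (2 * π)) := by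
  have hp := Real.pi_pos
  have hp3 := Real.pi_lt_d2
  have hp3' := Real.pi_gt_three
  refine ⟨by fun_prop, fun x => ?_, fun x => ?_, fun x => ?_, fun x y => ?_⟩
  · show -(Real.cos (2 * π * (x + 1)) / (2 * π)) = -(Real.cos (2 * π * x) / (2 * π))
    rw [show 2 * π * (x + 1) = 2 * π * x + 2 * π by ring, Real.cos_add_two_pi]
  · rw [std_d1]
    exact (Real.abs_sin_le_one _).trans (by norm_num)
  · rw [std_d1, std_d2]
    show |2 * π * Real.cos (2 * π * x)| ≤ 40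
    rw [abs_mul, abs_of_pos (by positivity)]
    have := Real.abs_cos_le_one (2 * π * x)
    nlinarith
  · rw [std_d1, std_d2]
    show |2 * π * Real.cos (2 * π * x) - 2 * π * Real.cos (2 * π * y)| ≤ 40 * |x - y| ^ s
    rw [← mul_sub, abs_mul, abs_of_pos (show (0:ℝ) < 2 * π by positivity)]
    have h0 : 0 ≤ |x - y| := abs_nonneg _
    rcases le_total |x - y| 1 with h | h
    · have h1 : |Real.cos (2 * π * x) - Real.cos (2 * π * y)| ≤ |2 * π * x - 2 * π * y| :=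
        Real.abs_cos_sub_cos_le _ _
      rw [← mul_sub, abs_mul, abs_of_pos (show (0:ℝ) < 2 * π by positivity)] at h1
      have h2 : |x - y| ≤ |x - y| ^ s := by
        rcases h0.eq_or_lt with h3 | h3
        · rw [← h3, Real.zero_rpow hs.ne']
        · have := Real.rpow_le_rpow_of_exponent_ge h3 h hs1
          rwa [Real.rpow_one] at this
      calc 2 * π * |Real.cos (2 * π * x) - Real.cos (2 * π * y)| ≤ 2 * π * (2 * π * |x - y|) :=
            mul_le_mul_of_nonneg_left h1 (by positivity)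
        _ = (4 * π * π) * |x - y| := by ring
        _ ≤ 40 * |x - y| := mul_le_mul_of_nonneg_right (by nlinarith) h0
        _ ≤ 40 * |x - y| ^ s := by linarith
    · have h1 : 1 ≤ |x - y| ^ s := Real.one_le_rpow h hs.le
      have h2 : |Real.cos (2 * π * x) - Real.cos (2 * π * y)| ≤ 2 := by
        have e1 := Real.abs_cos_le_one (2 * π * x)
        have e2 := Real.abs_cos_le_one (2 * π * y)
        have e3 := abs_sub (Real.cos (2 * π * x)) (Real.cos (2 * π * y))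
        linarith
      nlinarith

theorem std_nondeg : Nondeg 40 fun x : ℝ => -(Real.cos (2 * π * x) / (2 * π)) := by
  intro δ hδ
  rw [std_d1, std_d2]
  have h0 : volume {x : ℝ | x ∈ Icc (0 : ℝ) 1 ∧ |2 * π * Real.cos (2 * π * x)| ≤ δ} ≤
      ENNReal.ofReal δ := by
    have h1 := Pool.Agent.Helper18.FD.sub_cos (a := 1) (T := δ) (by norm_num) hδ.le
    rw [abs_one, div_one] at h1
    have h2 : {x : ℝ | x ∈ Icc (0 : ℝ) 1 ∧ |2 * π * Real.cos (2 * π * x)| ≤ δ} ⊆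
        ({x : ℝ | x ∈ Ico (0:ℝ) 1 ∧ 2 * π * 1 * |Real.cos (2 * π * x)| ≤ δ}) ∪ {1} := by
      rintro x ⟨h3, h4⟩
      rcases h3.2.eq_or_lt with h5 | h5
      · exact Or.inr h5
      · refine Or.inl ⟨⟨h3.1, h5⟩, ?_⟩
        rw [abs_mul, abs_of_pos (by positivity)] at h4
        linarith
    refine (measure_mono h2).trans ((measure_union_le _ _).trans ?_)
    rw [Real.volume_singleton, add_zero]
    exact h1
  have h1 : volume {x : ℝ | x ∈ Icc (0 : ℝ) 1 ∧ |2 * π * Real.cos (2 * π * x)| ≤ δ} ≤ 1 := by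
    refine (measure_mono (t := Icc (0:ℝ) 1) fun x hx => hx.1).trans ?_
    rw [Real.volume_Icc]
    norm_num
  rcases le_total δ 1 with h | h
  · refine h0.trans (ENNReal.ofReal_le_ofReal ?_)
    have h2 := Real.rpow_le_rpow_of_exponent_ge hδ h (show (1 / 40 : ℝ) ≤ 1 by norm_num)
    rw [Real.rpow_one] at h2
    have h3 : 0 ≤ δ ^ (1 / 40 : ℝ) := by positivity
    linarith
  · refine h1.trans ?_
    rw [← ENNReal.ofReal_one]
    refine ENNReal.ofReal_le_ofReal ?_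
    have h2 := Real.one_le_rpow h (show (0 : ℝ) ≤ 1 / 40 by norm_num)
    linarith

/-! ### the main theorem -/

section Main

variable {χ : ℝ → ℝ} {s : ℝ}

theorem noise_pot (hχ : Bump χ) (hs : 0 < s) (hs1 : s < 1) : ∃ C : ℝ, ∀ ω, Cube ω →
    Pot s C (noise χ s ω) := by
  obtain ⟨C, -, hC⟩ := h_ok hχ hs hs1
  refine ⟨C, fun ω hω => ?_⟩
  rw [noise_eq hω]
  obtain ⟨c0, c1, c2, p0, -, -, -, b1, b2, d0, d1, hh⟩ := hC ω
  have e1 : deriv (h0 χ s ω) = h1 χ s ω := funext fun x => (d0 x).deriv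
  have e2 : deriv (h1 χ s ω) = h2 χ s ω := funext fun x => (d1 x).deriv
  refine ⟨?_, p0, ?_, ?_, ?_⟩
  · have h3 : ContDiff ℝ 1 (h1 χ s ω) := by
      rw [contDiff_one_iff_deriv, e2]
      exact ⟨fun x => (d1 x).differentiableAt, c2⟩
    have h4 : ContDiff ℝ (1 + 1) (h0 χ s ω) := by
      rw [contDiff_succ_iff_deriv, e1]
      exact ⟨fun x => (d0 x).differentiableAt, by simp, h3⟩
    rw [show (2 : WithTop ℕ∞) = 1 + 1 by norm_num]
    exact h4
  · rw [e1]; exact b1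
  · rw [e1, e2]; exact b2
  · rw [e1, e2]; exact hh

/-- the derivatives of the perturbed potential -/
theorem deriv_sum (hχ : Bump χ) (hs : 0 < s) (hs1 : s < 1) {G : ℝ → ℝ} (hG : ContDiff ℝ 2 G) (κ : ℝ) {ω : Om}
    (hω : Cube ω) :
    (deriv (fun x => G x + κ * noise χ s ω x) = fun x => deriv G x + κ * h1 χ s ω x) ∧
    deriv (deriv (fun x => G x + κ * noise χ s ω x)) = fun x => deriv (deriv G) x + κ * h2 χ s ω x := by
  rw [noise_eq hω]
  obtain ⟨C, -, hC⟩ := h_ok hχ hs hs1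
  obtain ⟨c0, c1, c2, p0, -, -, -, b1, b2, d0, d1, hh⟩ := hC ω
  have e1 : (deriv fun x => G x + κ * h0 χ s ω x) = fun x => deriv G x + κ * h1 χ s ω x := by
    funext x
    exact ((der1 hG x).add ((d0 x).const_mul κ)).deriv
  refine ⟨e1, ?_⟩
  rw [e1]
  funext x
  exact ((der2 hG x).add ((d1 x).const_mul κ)).deriv

theorem good_of (hχ : Bump χ) (hs : 0 < s) (hs1 : s < 1) {c a κ R : ℝ} (hκ : 0 ≤ κ) (hκ1 : κ ≤ 1) {G : ℝ → ℝ}
    (hG : Pot s R G) {ω : Om} (hω : Cube ω)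
    (hB : Big c a (fun x => deriv G x + κ * h1 χ s ω x) (fun x => deriv (deriv G) x + κ * h2 χ s ω x)) :
    Good c a (fun x => G x + κ * noise χ s ω x) := by
  obtain ⟨e1, e2⟩ := deriv_sum hχ hs hs1 hG.smooth κ hω
  obtain ⟨C, hC, hh⟩ := h_ok hχ hs hs1
  obtain ⟨-, -, -, -, q2, q3, -, q5, q6, -, q8, q9⟩ := hh ω
  have hP := pot_add hC (potOk hG) hκ hκ1 q2 q3 q5 q6 q8 q9
  have hT := ps_isT (a := a) hP
  unfold Good
  rw [e2]
  rw [e1]
  refine ⟨TF a (fun x => deriv G x + κ * h1 χ s ω x), fun x y => hT.lift (x, y), hT.mp, ?_⟩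
  exact hB

theorem main (s : ℝ) (hs : 0 < s) (hs1 : s < 1) (χ : ℝ → ℝ) (hχ : ContDiff ℝ 3 χ)
    (hχ1 : ∀ t, |t| ≤ 1 / 2 → χ t = 1) (hχ0 : ∀ t, 1 ≤ |t| → χ t = 0) :
    (∃ C : ℝ, ∀ᵐ ω ∂law, Pot s C (noise χ s ω)) ∧
    (Pot s 40 fun x => -(Real.cos (2 * π * x) / (2 * π))) ∧
    (Nondeg 40 fun x => -(Real.cos (2 * π * x) / (2 * π))) ∧
    ∀ R : ℝ, 1 ≤ R → ∃ c A : ℝ, 0 < c ∧ 0 < A ∧
      (∀ (a κ : ℝ) (G : ℝ → ℝ), A ≤ |a| → Real.exp (-|a| ^ c) ≤ κ → κ ≤ 1 → Pot s R G →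
        (1 / R ≤ κ ∨ Nondeg R G) →
        law {ω | ¬ Good c a (fun x => G x + κ * noise χ s ω x)} ≤ ENNReal.ofReal (|a| ^ (-c))) ∧
      (∀ (κ : ℝ → ℝ) (G : ℝ → ℝ → ℝ), Measurable κ → (Measurable fun r : ℝ × ℝ => G r.1 r.2) →
        (∀ a, A ≤ |a| → Real.exp (-|a| ^ c) ≤ κ a ∧ κ a ≤ 1 ∧ Pot s R (G a) ∧
          (1 / R ≤ κ a ∨ Nondeg R (G a))) →
        ∀ᵐ ω ∂law, ∃ Λ : Set ℝ, MeasurableSet Λ ∧
          (∃ r₀ : ℝ, ∀ r : ℝ, r₀ ≤ r → volume (Icc (-r) r \ Λ) ≤ ENNReal.ofReal (r ^ (1 - c))) ∧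
          ∀ a ∈ Λ, Good c a (fun x => G a x + κ a * noise χ s ω x)) := by
  have hB : Bump χ := ⟨hχ, hχ1, hχ0⟩
  have hs' : s < 1 := hs1
  refine ⟨?_, std_pot hs hs'.le, std_nondeg, ?_⟩
  · obtain ⟨C, hC⟩ := noise_pot hB hs hs'
    refine ⟨C, ?_⟩
    rw [law_eq]
    filter_upwards [ae_cube] with ω hω
    exact hC ω hω
  intro R hR
  obtain ⟨c, A, hc, hA, h1, h2⟩ := final hs hs1 hB hR
  refine ⟨c, A, hc, by linarith, ?_, ?_⟩
  · intro a κ G ha hκ hκ' hG hN
    have hκ0 : 0 ≤ κ := (Real.exp_pos _).le.trans hκ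
    rw [law_eq]
    refine le_trans (measure_mono_ae ?_)
      (h1 a κ (deriv G) (deriv (deriv G)) ha hκ hκ' (potOk hG) (ndC hN))
    filter_upwards [ae_cube] with ω hω hn hb
    exact hn (good_of hB hs hs' hκ0 hκ' hG hω hb)
  · intro κ G mκ mG h
    classical
    obtain ⟨G', e1, e2⟩ : ∃ G' : ℝ → ℝ → ℝ, (∀ a, A ≤ |a| → G' a = G a) ∧
        ∀ a, ¬ A ≤ |a| → G' a = fun _ => 0 :=
      ⟨fun a => if A ≤ |a| then G a else fun _ => 0, fun a ha => if_pos ha, fun a ha => if_neg ha⟩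
    have hset : MeasurableSet {a : ℝ | A ≤ |a|} := measurableSet_le measurable_const measurable_id.abs
    have hsm : ∀ a, ContDiff ℝ 2 (G' a) := by
      intro a
      by_cases ha : A ≤ |a|
      · rw [e1 a ha]
        exact (h a ha).2.2.1.smooth
      · rw [e2 a ha]
        exact contDiff_const
    have hm : Measurable fun r : ℝ × ℝ => G' r.1 r.2 := by
      have h3 : (fun r : ℝ × ℝ => G' r.1 r.2) = fun r : ℝ × ℝ => if A ≤ |r.1| then G r.1 r.2 else 0 := by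
        funext r
        by_cases hr : A ≤ |r.1|
        · rw [e1 _ hr, if_pos hr]
        · rw [e2 _ hr, if_neg hr]
      rw [h3]
      exact Measurable.ite (measurable_fst hset) mG measurable_const
    obtain ⟨m1, m2⟩ := meas_fam hsm hm
    have h3 := h2 κ (fun a => deriv (G' a)) (fun a => deriv (deriv (G' a))) mκ m1 m2 (fun a ha => by
      obtain ⟨k1, k2, k3, k4⟩ := h a ha
      rw [e1 a ha]
      exact ⟨k1, k2, potOk k3, ndC k4⟩)
    rw [law_eq]
    filter_upwards [h3, ae_cube] with ω hω hc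
    obtain ⟨Λ, hΛ1, hΛ2, hΛ3⟩ := hω
    refine ⟨Λ, hΛ1, hΛ2, fun a ha => ?_⟩
    obtain ⟨haA, hb⟩ := hΛ3 a ha
    obtain ⟨k1, k2, k3, k4⟩ := h a haA
    rw [e1 a haA] at hb
    exact good_of hB hs hs' ((Real.exp_pos _).le.trans k1) k2 k3 hc hb

end Main

end Pool.Agent.Helper95.PF
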