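import Pool.Agent.Helper3.PF.Defs
import Pool.Agent.Helper88.MT.Dual

/-! Project PF (MP_b8862a_ag), block C1 (helper95): from the root system of a Lie algebra and the weights of a module to a finite root system and a saturated set in a Euclidean space. -/

set_option autoImplicit false
set_option linter.unusedSectionVars false

open Module LieModule LieAlgebra LieAlgebra.IsKilling MTP.MF

namespace PF.C

section lie

variable {K : Type*} [Field K] [CharZero K] [IsAlgClosed K]
  {L : Type*} [LieRing L] [LieAlgebra K L] [FiniteDimensional K L] [IsKilling K L]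
  {H : LieSubalgebra K L} [H.IsCartanSubalgebra]

/-- integral functionals -/
def Intl (μ : Dual K H) : Prop := ∀ α : H.root, ∃ k : ℤ, μ (coroot α.1) = (k : K)

open Classical in
/-- the integral pairing with a coroot -/
noncomputable def iv (μ : Dual K H) (α : H.root) : ℤ :=
  if h : ∃ k : ℤ, μ (coroot α.1) = (k : K) then h.choose else 0

lemma iv_spec {μ : Dual K H} (hμ : Intl μ) (α : H.root) : μ (coroot α.1) = (iv μ α : K) := by
  unfold iv
  rw [dif_pos (hμ α)]
  exact (hμ α).choose_spec

lemma iv_eq {μ : Dual K H} {α : H.root} {k : ℤ} (h : μ (coroot α.1) = (k : K)) : iv μ α = k := by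
  have h1 : ∃ k : ℤ, μ (coroot α.1) = (k : K) := ⟨k, h⟩
  unfold iv
  rw [dif_pos h1]
  exact Int.cast_injective (h1.choose_spec.symm.trans h)

/-- the root as a functional -/
noncomputable def rt (α : H.root) : Dual K H := (rootSystem H).root α

lemma rt_apply (α : H.root) (x : H) : rt α x = α.1 x := rfl

lemma rt_coroot (β α : H.root) : rt β (coroot α.1) = (rootSystem H).pairing β α := rfl

lemma intl_rt (β : H.root) : Intl (rt β) := by
  intro α
  refine ⟨(rootSystem H).pairingIn ℤ β α, ?_⟩
  rw [rt_coroot]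
  exact ((rootSystem H).algebraMap_pairingIn ℤ β α).symm

lemma iv_rt (β α : H.root) : iv (rt β) α = (rootSystem H).pairingIn ℤ β α := by
  apply iv_eq
  rw [rt_coroot]
  exact ((rootSystem H).algebraMap_pairingIn ℤ β α).symm

lemma Intl.add {μ ν : Dual K H} (hμ : Intl μ) (hν : Intl ν) : Intl (μ + ν) := by
  intro α
  refine ⟨iv μ α + iv ν α, ?_⟩
  rw [LinearMap.add_apply, iv_spec hμ, iv_spec hν]
  push_cast
  rfl

lemma Intl.neg {μ : Dual K H} (hμ : Intl μ) : Intl (-μ) := by
  intro α
  refine ⟨-iv μ α, ?_⟩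
  rw [LinearMap.neg_apply, iv_spec hμ]
  push_cast
  rfl

lemma Intl.sub {μ ν : Dual K H} (hμ : Intl μ) (hν : Intl ν) : Intl (μ - ν) := by
  rw [sub_eq_add_neg]
  exact hμ.add hν.neg

lemma Intl.zsmul {μ : Dual K H} (hμ : Intl μ) (n : ℤ) : Intl ((n : K) • μ) := by
  intro α
  refine ⟨n * iv μ α, ?_⟩
  rw [LinearMap.smul_apply, iv_spec hμ, smul_eq_mul]
  push_cast
  rfl

/-- the vector of pairings -/
noncomputable def toE (μ : Dual K H) : EuclideanSpace ℝ H.root := WithLp.toLp 2 fun α => (iv μ α : ℝ)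

lemma toE_apply (μ : Dual K H) (α : H.root) : toE μ α = (iv μ α : ℝ) := rfl

lemma toE_add {μ ν : Dual K H} (hμ : Intl μ) (hν : Intl ν) : toE (μ + ν) = toE μ + toE ν := by
  ext α
  rw [PiLp.add_apply, toE_apply, toE_apply, toE_apply, iv_eq (k := iv μ α + iv ν α)]
  · push_cast
    rfl
  · rw [LinearMap.add_apply, iv_spec hμ, iv_spec hν]
    push_cast
    rfl

lemma toE_neg {μ : Dual K H} (hμ : Intl μ) : toE (-μ) = -toE μ := by
  ext α
  rw [PiLp.neg_apply, toE_apply, toE_apply, iv_eq (k := -iv μ α)]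
  · push_cast
    rfl
  · rw [LinearMap.neg_apply, iv_spec hμ]
    push_cast
    rfl

lemma toE_sub {μ ν : Dual K H} (hμ : Intl μ) (hν : Intl ν) : toE (μ - ν) = toE μ - toE ν := by
  rw [sub_eq_add_neg, toE_add hμ hν.neg, toE_neg hν, sub_eq_add_neg]

lemma toE_zsmul {μ : Dual K H} (hμ : Intl μ) (n : ℤ) : toE ((n : K) • μ) = (n : ℝ) • toE μ := by
  ext α
  rw [PiLp.smul_apply, toE_apply, toE_apply, iv_eq (k := n * iv μ α)]
  · push_cast
    rfl
  · rw [LinearMap.smul_apply, iv_spec hμ, smul_eq_mul]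
    push_cast
    rfl

lemma intl_zero : Intl (0 : Dual K H) := fun α => ⟨0, by simp⟩

lemma toE_zero : toE (0 : Dual K H) = 0 := by
  ext α
  rw [toE_apply, iv_eq (k := 0) (by simp)]
  simp

lemma eq_of_coroot {μ ν : Dual K H} (h : ∀ α : H.root, μ (coroot α.1) = ν (coroot α.1)) : μ = ν := by
  have h1 : (⊤ : Submodule K H) ≤ LinearMap.ker (μ - ν) := by
    have h0 : (rootSystem H).corootSpan K = ⊤ := RootPairing.IsRootSystem.span_coroot_eq_top
    rw [← h0]
    unfold RootPairing.corootSpan
    rw [Submodule.span_le]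
    rintro _ ⟨α, rfl⟩
    show (μ - ν) (coroot α.1) = 0
    rw [LinearMap.sub_apply, h α, sub_self]
  ext x
  have h2 := h1 (Submodule.mem_top (x := x))
  rw [LinearMap.mem_ker, LinearMap.sub_apply, sub_eq_zero] at h2
  exact h2

lemma toE_inj {μ ν : Dual K H} (hμ : Intl μ) (hν : Intl ν) (h : toE μ = toE ν) : μ = ν := by
  apply eq_of_coroot
  intro α
  have h1 : toE μ α = toE ν α := by rw [h]
  rw [toE_apply, toE_apply] at h1
  have h2 : iv μ α = iv ν α := Int.cast_injective (α := ℝ) h1
  rw [iv_spec hμ, iv_spec hν, h2]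

/-- the canonical form -/
lemma rootForm_eq {μ ν : Dual K H} (hμ : Intl μ) (hν : Intl ν) :
    (rootSystem H).RootForm μ ν = ((∑ α : H.root, iv μ α * iv ν α : ℤ) : K) := by
  rw [RootPairing.rootForm_apply_apply]
  push_cast
  refine Finset.sum_congr rfl fun α _ => ?_
  rw [← iv_spec hμ, ← iv_spec hν]
  rfl

lemma inner_toE (μ ν : Dual K H) : inner ℝ (toE μ) (toE ν) = ((∑ α : H.root, iv μ α * iv ν α : ℤ) : ℝ) := by
  rw [PiLp.inner_apply]
  push_cast
  refine Finset.sum_congr rfl fun α _ => ?_
  rw [toE_apply, toE_apply]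
  simp [mul_comm]

/-- transport of identities from `K` to `ℝ` -/
lemma inner_rt {μ : Dual K H} (hμ : Intl μ) (β : H.root) :
    2 * inner ℝ (toE μ) (toE (rt β)) = (iv μ β : ℝ) * inner ℝ (toE (rt β)) (toE (rt β)) := by
  have h1 := RootPairing.rootForm_reflection_reflection_apply (rootSystem H) β μ (rt β)
  have h2 : (rootSystem H).reflection β μ = μ - (iv μ β : K) • rt β := by
    rw [RootPairing.reflection_apply]
    congr 2
    exact iv_spec hμ β
  have h3 : (rootSystem H).reflection β (rt β) = -rt β := RootPairing.reflection_apply_self _ _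
  rw [h2, h3, map_neg, map_sub, map_smul, LinearMap.sub_apply, LinearMap.smul_apply, smul_eq_mul, rootForm_eq hμ (intl_rt β),
    rootForm_eq (intl_rt β) (intl_rt β)] at h1
  have h4 : (iv μ β : K) * ((∑ α : H.root, iv (rt β) α * iv (rt β) α : ℤ) : K) = 2 * ((∑ α : H.root, iv μ α * iv (rt β) α : ℤ) : K) := by
    linear_combination h1
  have h5 : iv μ β * (∑ α : H.root, iv (rt β) α * iv (rt β) α) = 2 * ∑ α : H.root, iv μ α * iv (rt β) α := by
    exact_mod_cast h4
  rw [inner_toE, inner_toE]
  have h6 : ((iv μ β * (∑ α : H.root, iv (rt β) α * iv (rt β) α) : ℤ) : ℝ) = ((2 * ∑ α : H.root, iv μ α * iv (rt β) α : ℤ) : ℝ) := by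
    rw [h5]
  push_cast at h6 ⊢
  linarith

lemma iv_self (β : H.root) : iv (rt β) β = 2 := by
  rw [iv_rt, RootPairing.pairingIn_same]

lemma inner_self_pos (β : H.root) : 0 < inner ℝ (toE (rt β)) (toE (rt β)) := by
  rw [inner_toE]
  have h1 : (4 : ℤ) ≤ ∑ α : H.root, iv (rt β) α * iv (rt β) α := by
    refine le_trans (le_of_eq ?_) (Finset.single_le_sum (f := fun α => iv (rt β) α * iv (rt β) α)
      (fun α _ => mul_self_nonneg _) (Finset.mem_univ β))
    show (4 : ℤ) = iv (rt β) β * iv (rt β) β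
    rw [iv_self]
    norm_num
  have h2 : (4 : ℝ) ≤ ((∑ α : H.root, iv (rt β) α * iv (rt β) α : ℤ) : ℝ) := by exact_mod_cast h1
  linarith

/-- the pairing -/
lemma co_toE {μ : Dual K H} (hμ : Intl μ) (β : H.root) : co (toE (rt β)) (toE μ) = (iv μ β : ℝ) := by
  unfold co
  rw [inner_rt hμ, mul_div_assoc, div_self (inner_self_pos β).ne', mul_one]

open Classical in
/-- the roots in the Euclidean space -/
noncomputable def PhiS (H : LieSubalgebra K L) [H.IsCartanSubalgebra] : Finset (EuclideanSpace ℝ H.root) :=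
  Finset.univ.image fun α : H.root => toE (rt α)

lemma mem_PhiS {x : EuclideanSpace ℝ H.root} : x ∈ PhiS H ↔ ∃ α : H.root, toE (rt α) = x := by
  unfold PhiS
  simp

lemma rt_inj {α β : H.root} (h : rt α = rt β) : α = β := (rootSystem H).root.injective h

lemma toE_rt_inj : Function.Injective fun α : H.root => toE (rt α) :=
  fun α β h => rt_inj (toE_inj (intl_rt α) (intl_rt β) h)

/-- the quarter sum -/
lemma qs_toE (β : H.root) : qs (PhiS H) (toE (rt β)) = (1 / 4) * ∑ g : H.root, |(((rootSystem H).pairingIn ℤ g β : ℤ) : ℝ)| := by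
  classical
  unfold qs PhiS
  rw [Finset.sum_image fun a _ b _ h => toE_rt_inj h]
  congr 1
  refine Finset.sum_congr rfl fun g _ => ?_
  rw [co_toE (intl_rt g), iv_rt]

/-- the root system is reduced and irreducible -/
theorem rs [Nonempty H.root] (hirrR : (rootSystem H).IsIrreducible) : RS (PhiS H) where
  nonempty := by
    obtain ⟨α⟩ := (inferInstance : Nonempty H.root)
    exact ⟨_, mem_PhiS.2 ⟨α, rfl⟩⟩
  ne_zero := by
    intro a ha h0
    obtain ⟨α, rfl⟩ := mem_PhiS.1 ha
    have := inner_self_pos α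
    rw [h0, inner_zero_left] at this
    exact lt_irrefl _ this
  int := by
    intro a ha b hb
    obtain ⟨α, rfl⟩ := mem_PhiS.1 ha
    obtain ⟨β, rfl⟩ := mem_PhiS.1 hb
    exact ⟨iv (rt β) α, co_toE (intl_rt β) α⟩
  refl := by
    intro a ha b hb
    obtain ⟨α, rfl⟩ := mem_PhiS.1 ha
    obtain ⟨β, rfl⟩ := mem_PhiS.1 hb
    refine mem_PhiS.2 ⟨(rootSystem H).reflectionPerm α β, ?_⟩
    have h1 : rt ((rootSystem H).reflectionPerm α β) = rt β - (iv (rt β) α : K) • rt α := by
      show (rootSystem H).root ((rootSystem H).reflectionPerm α β) = _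
      rw [RootPairing.root_reflectionPerm, RootPairing.reflection_apply]
      congr 2
      exact iv_spec (intl_rt β) α
    rw [h1, toE_sub (intl_rt β) ((intl_rt α).zsmul _), toE_zsmul (intl_rt α), co_toE (intl_rt β)]
  red := by
    intro a ha c hc
    obtain ⟨α, rfl⟩ := mem_PhiS.1 ha
    obtain ⟨β, hβ⟩ := mem_PhiS.1 hc
    have h1 : ∀ γ : H.root, (iv (rt β) γ : ℝ) = c * iv (rt α) γ := by
      intro γ
      have := congrArg (fun x : EuclideanSpace ℝ H.root => x γ) hβ
      simpa [toE_apply] using this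
    have h2 := h1 α
    rw [iv_self] at h2
    have h3 : (2 : K) • rt β = (iv (rt β) α : K) • rt α := by
      apply eq_of_coroot
      intro γ
      rw [LinearMap.smul_apply, LinearMap.smul_apply, iv_spec (intl_rt β), iv_spec (intl_rt α), smul_eq_mul, smul_eq_mul]
      have h4 : (2 : ℝ) * iv (rt β) γ = iv (rt β) α * iv (rt α) γ := by
        rw [h1 γ, h2]
        push_cast
        ring
      have h5 : 2 * iv (rt β) γ = iv (rt β) α * iv (rt α) γ := by exact_mod_cast h4
      exact_mod_cast h5
    have h6 : ¬ LinearIndependent K ![(rootSystem H).root β, (rootSystem H).root α] := by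
      intro hli
      have := LinearIndependent.pair_iff.1 hli 2 (-(iv (rt β) α : K)) (by
        rw [neg_smul, ← sub_eq_add_neg, sub_eq_zero]
        exact h3)
      exact two_ne_zero this.1
    rcases RootPairing.IsReduced.eq_or_eq_neg β α h6 with h | h
    · left
      have h7 : rt β = rt α := h
      rw [h7, iv_self] at h2
      push_cast at h2
      linarith
    · right
      have h7 : rt β = -rt α := h
      have h8 : iv (rt β) α = -2 := by
        apply iv_eq
        rw [h7, LinearMap.neg_apply, iv_spec (intl_rt α), iv_self]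
        push_cast
        rfl
      rw [h8] at h2
      push_cast at h2
      linarith
  irr := by
    intro S hS hne horth
    by_contra hcon
    obtain ⟨b, hb, hbS⟩ : ∃ b ∈ PhiS H, b ∉ S := by
      by_contra! h
      exact hcon (Finset.Subset.antisymm hS h)
    obtain ⟨β, rfl⟩ := mem_PhiS.1 hb
    set Q : Submodule K (Dual K H) := Submodule.span K {μ | ∃ α : H.root, toE (rt α) ∈ S ∧ rt α = μ} with hQ
    have horth' : ∀ α : H.root, toE (rt α) ∈ S → ∀ γ : H.root, toE (rt γ) ∉ S → iv (rt α) γ = 0 := by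
      intro α hα γ hγ
      have h1 := horth _ hα _ (mem_PhiS.2 ⟨γ, rfl⟩) hγ
      have h2 := inner_rt (intl_rt α) γ
      rw [h1, mul_zero] at h2
      have h3 := (mul_eq_zero.1 h2.symm).resolve_right (inner_self_pos γ).ne'
      exact_mod_cast h3
    have hinv : ∀ γ : H.root, Q ∈ Module.End.invtSubmodule ((rootSystem H).reflection γ : Dual K H →ₗ[K] Dual K H) := by
      intro γ
      rw [Module.End.mem_invtSubmodule, hQ, Submodule.span_le]
      rintro _ ⟨α, hα, rfl⟩
      show (rootSystem H).reflection γ (rt α) ∈ Submodule.span K _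
      have h2 : (rootSystem H).reflection γ (rt α) = rt α - (iv (rt α) γ : K) • rt γ := by
        rw [RootPairing.reflection_apply]
        congr 2
        exact iv_spec (intl_rt α) γ
      rw [h2]
      refine Submodule.sub_mem _ (Submodule.subset_span ⟨α, hα, rfl⟩) ?_
      by_cases hγ : toE (rt γ) ∈ S
      · exact Submodule.smul_mem _ _ (Submodule.subset_span ⟨γ, hγ, rfl⟩)
      · rw [horth' α hα γ hγ, Int.cast_zero, zero_smul]
        exact Submodule.zero_mem _
    have hQne : Q ≠ ⊥ := by
      obtain ⟨a, ha⟩ := hne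
      obtain ⟨α, rfl⟩ := mem_PhiS.1 (hS ha)
      intro h
      have h1 : rt α ∈ Q := Submodule.subset_span ⟨α, ha, rfl⟩
      rw [h, Submodule.mem_bot] at h1
      exact (rootSystem H).ne_zero α h1
    have htop : Q = ⊤ := hirrR.eq_top_of_invtSubmodule_reflection Q hinv hQne
    have h1 : rt β ∈ Q := by rw [htop]; exact Submodule.mem_top
    have h2 : ∀ μ ∈ Q, (rootSystem H).RootForm μ (rt β) = 0 := by
      intro μ hμ
      refine Submodule.span_induction (p := fun μ _ => (rootSystem H).RootForm μ (rt β) = 0) ?_ ?_ ?_ ?_ hμ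
      · rintro _ ⟨α, hα, rfl⟩
        rw [rootForm_eq (intl_rt α) (intl_rt β)]
        have h3 := horth _ hα _ hb hbS
        rw [inner_toE] at h3
        have h4 : (∑ γ : H.root, iv (rt α) γ * iv (rt β) γ) = 0 := by exact_mod_cast h3
        rw [h4, Int.cast_zero]
      · rw [map_zero, LinearMap.zero_apply]
      · intro x y _ _ hx hy
        rw [map_add, LinearMap.add_apply, hx, hy, add_zero]
      · intro a x _ hx
        rw [map_smul, LinearMap.smul_apply, hx, smul_zero]
    have h3 := h2 _ h1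
    rw [rootForm_eq (intl_rt β) (intl_rt β)] at h3
    have h4 : (∑ γ : H.root, iv (rt β) γ * iv (rt β) γ) = 0 := by exact_mod_cast h3
    have h5 := inner_self_pos β
    rw [inner_toE, h4] at h5
    simp at h5

end lie

end PF.C
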