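import Mathlib

/-!
# Random potentials (MP_9ee088_an): definitions for the final statement
-/

set_option autoImplicit false
open MeasureTheory Real Set Filter Topology
open scoped ENNReal

namespace Pool.Agent.Helper95.PF

/-- Law of the coefficients: independent, uniform on `[-1, 1]`, indexed by scale, cell and kind. -/
noncomputable def law : Measure (ℕ × ℕ × Bool → ℝ) :=
  Measure.infinitePi fun _ => (2 : ℝ≥0∞)⁻¹ • volume.restrict (Icc (-1) 1)

/-- `N (x - i / N)`, the difference taken modulo one in `[-1/2, 1/2]`. -/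
noncomputable def loc (N i : ℕ) (x : ℝ) : ℝ := N * ((x - i / N) - round (x - i / N))

/-- The random function `h_ω` on the circle: the sum over all scales `N = 2 ^ (l + 3)` and all cells
`0 ≤ i < N` of `N ^ (-2 - s) χ(u) (ω₀ u + ω₁ u ^ 2 / 2)`, `u = N (x - i / N)`. -/
noncomputable def noise (χ : ℝ → ℝ) (s : ℝ) (ω : ℕ × ℕ × Bool → ℝ) (x : ℝ) : ℝ :=
  ∑' l : ℕ, ((2 ^ (l + 3) : ℕ) : ℝ) ^ (-(2 + s)) *
    ∑ i ∈ Finset.range (2 ^ (l + 3)), χ (loc (2 ^ (l + 3)) i x) *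
      (ω (l, i, false) * loc (2 ^ (l + 3)) i x + ω (l, i, true) * (loc (2 ^ (l + 3)) i x ^ 2 / 2))

/-- `V` is one-periodic of class `C^(2+s)`: the first and second derivatives and the `s`-Hölder constant of
the second derivative are at most `R`. -/
structure Pot (s R : ℝ) (V : ℝ → ℝ) : Prop where
  smooth : ContDiff ℝ 2 V
  per : ∀ x, V (x + 1) = V x
  d1 : ∀ x, |deriv V x| ≤ R
  d2 : ∀ x, |deriv (deriv V) x| ≤ R
  hold : ∀ x y, |deriv (deriv V) x - deriv (deriv V) y| ≤ R * |x - y| ^ s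

/-- The second derivative is rarely small. -/
def Nondeg (R : ℝ) (V : ℝ → ℝ) : Prop := ∀ δ : ℝ, 0 < δ →
  volume {x : ℝ | x ∈ Icc (0 : ℝ) 1 ∧ |deriv (deriv V) x| ≤ δ} ≤ ENNReal.ofReal (R * δ ^ (1 / R))

/-- The area preserving map `T(x, y) = (2x - y + a V'(x), x)` of the torus has an invariant set `Ω` of measure at
least `1 - |a| ^ (-c)` on which it is ergodic and weakly mixing, with Lyapunov exponent `L` almost everywhere
on `Ω`, `|L - ∫ log |a V''|| ≤ |a| ^ (-c)`. -/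
def Good (c a : ℝ) (V : ℝ → ℝ) : Prop :=
  ∃ T : UnitAddCircle × UnitAddCircle → UnitAddCircle × UnitAddCircle,
    (∀ x y : ℝ, T ((x : UnitAddCircle), (y : UnitAddCircle)) =
      (((2 * x - y + a * deriv V x : ℝ) : UnitAddCircle), (x : UnitAddCircle))) ∧
    MeasurePreserving T volume volume ∧
    ∃ (Ω : Set (UnitAddCircle × UnitAddCircle)) (L : ℝ), MeasurableSet Ω ∧
      T ⁻¹' Ω =ᵐ[volume] Ω ∧ 1 - |a| ^ (-c) ≤ volume.real Ω ∧
      (∀ (ξ : ℂ) (h : UnitAddCircle × UnitAddCircle → ℂ), Measurable h →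
        (∀ᵐ z, z ∈ Ω → h (T z) = ξ * h z) → ∃ w : ℂ, ∀ᵐ z, z ∈ Ω → h z = w) ∧
      IntervalIntegrable (fun x => Real.log |a * deriv (deriv V) x|) volume 0 1 ∧
      |L - (∫ x in (0 : ℝ)..1, Real.log |a * deriv (deriv V) x|)| ≤ |a| ^ (-c) ∧
      ∀ᵐ q : ℝ × ℝ, ((q.1 : UnitAddCircle), (q.2 : UnitAddCircle)) ∈ Ω →
        Tendsto (fun n : ℕ => Real.log
          ‖fderiv ℝ ((fun r : ℝ × ℝ => (2 * r.1 - r.2 + a * deriv V r.1, r.1))^[n]) q‖ / n) atTop (𝓝 L)

end Pool.Agent.Helper95.PF
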